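import Pool.Agent.W2helper90.SM.Stm
import Pool.Agent.W2helper5.RT.CST2

/-!
# SM, piece CST: the constants
-/

set_option autoImplicit false

open MeasureTheory Set

namespace Pool.Agent.W2helper90.SM

noncomputable section

theorem cst_real (N h A : ℝ) (hN : 0 < N) (hh : 0 < h) (hA : 0 < A) :
    LTd.bco h (1 + N) (N / (N + 1) * (4 * Real.pi) * (Real.Gamma (N + 1) / A) ^ (1 / N)) *
      A ^ (1 / (N + h)) =
    (N + h) / (N + h + 1) * (4 * Real.pi) * Real.Gamma (N + h + 1) ^ (1 / (N + h)) := by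
  obtain ⟨D, hD⟩ : ∃ D : ℝ, D = N + h := ⟨_, rfl⟩
  have hD0 : 0 < D := by rw [hD]; positivity
  have hπ := Real.pi_pos
  have h4 : (0 : ℝ) < 4 * Real.pi := by positivity
  have hGN : 0 < Real.Gamma (N + 1) := Real.Gamma_pos_of_pos (by positivity)
  have hGD : 0 < Real.Gamma (D + 1) := Real.Gamma_pos_of_pos (by positivity)
  have e1 : Real.Gamma (1 + N + 1 + h) = (D + 1) * Real.Gamma (D + 1) := by
    rw [show 1 + N + 1 + h = (D + 1) + 1 by rw [hD]; ring, Real.Gamma_add_one (by positivity)]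
  have e2 : Real.Gamma (1 + N + 1) = (N + 1) * Real.Gamma (N + 1) := by
    rw [show 1 + N + 1 = (N + 1) + 1 by ring, Real.Gamma_add_one (by positivity)]
  have e3 : (N / (N + 1) * (4 * Real.pi) * (Real.Gamma (N + 1) / A) ^ (1 / N)) ^ N =
      N ^ N / (N + 1) ^ N * (4 * Real.pi) ^ N * (Real.Gamma (N + 1) / A) := by
    rw [Real.mul_rpow (by positivity) (by positivity), Real.mul_rpow (by positivity) h4.le,
      Real.div_rpow hN.le (by positivity), ← Real.rpow_mul (by positivity),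
      one_div_mul_cancel hN.ne', Real.rpow_one]
  have e4 : (1 + N) ^ (1 + N) = (N + 1) ^ N * (N + 1) := by
    rw [add_comm 1 N, Real.rpow_add_one (by positivity)]
  have e5 : (D + 1) ^ (D + 1) = (D + 1) ^ D * (D + 1) := by
    rw [Real.rpow_add_one (by positivity)]
  have e6 : (4 * Real.pi) ^ D = (4 * Real.pi) ^ h * (4 * Real.pi) ^ N := by
    rw [← Real.rpow_add h4]
    congr 1
    rw [hD]
    ring
  have e7 : LTd.JJ h (1 + N) *
      (N / (N + 1) * (4 * Real.pi) * (Real.Gamma (N + 1) / A) ^ (1 / N)) ^ (1 + N - 1) =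
      D ^ D / (D + 1) ^ D * (4 * Real.pi) ^ D * (Real.Gamma (D + 1) / A) := by
    rw [show 1 + N - 1 = N by ring, e3]
    unfold LTd.JJ LTd.cc
    rw [e1, e2, show 1 + N + h = D + 1 by rw [hD]; ring, show D + 1 - 1 = D by ring,
      show 1 + N - 1 = N by ring, e4, e5, e6]
    have p1 : 0 < (4 * Real.pi) ^ h := by positivity
    have p2 : 0 < (4 * Real.pi) ^ N := by positivity
    have p3 : 0 < N ^ N := by positivity
    have p4 : 0 < (N + 1) ^ N := by positivity
    have p5 : 0 < D ^ D := by positivity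
    have p6 : 0 < (D + 1) ^ D := by positivity
    field_simp
  unfold LTd.bco
  rw [e7, show 1 + N + h - 1 = D by rw [hD]; ring, ← hD,
    Real.mul_rpow (by positivity) (by positivity), Real.mul_rpow (by positivity) (by positivity),
    ← Real.div_rpow hD0.le (by positivity), ← Real.rpow_mul (by positivity),
    ← Real.rpow_mul h4.le, mul_one_div_cancel hD0.ne', Real.rpow_one, Real.rpow_one,
    Real.div_rpow hGD.le hA.le]
  have p7 : 0 < A ^ (1 / D) := by positivity
  field_simp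

theorem t_CST : S_CST := by
  intro m n hm hn A hA
  have hn0 : (0 : ℝ) < n := by exact_mod_cast hn
  have hm0 : (0 : ℝ) < m := by exact_mod_cast hm
  have hπ := Real.pi_pos
  have h4 : (0 : ℝ) < 4 * Real.pi := by positivity
  have hG : 0 < Real.Gamma ((n : ℝ) / 2 + 1) := Real.Gamma_pos_of_pos (by positivity)
  refine ⟨by unfold aa; positivity, ?_⟩
  have h1 := cst_real ((n : ℝ) / 2) ((m : ℝ) / 2) A (by positivity) (by positivity) hA
  have hd : (n : ℝ) / 2 + (m : ℝ) / 2 = ((m + n : ℕ) : ℝ) / 2 := by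
    push_cast
    ring
  have hd0 : (0 : ℝ) < ((m + n : ℕ) : ℝ) := by
    push_cast
    positivity
  have e1 : aa n A = (n : ℝ) / 2 / ((n : ℝ) / 2 + 1) * (4 * Real.pi) *
      (Real.Gamma ((n : ℝ) / 2 + 1) / A) ^ (1 / ((n : ℝ) / 2)) := by
    unfold aa
    rw [show 1 / ((n : ℝ) / 2) = 2 / (n : ℝ) by field_simp]
    congr 2
    field_simp
  rw [hd] at h1
  rw [e1, show (2 / ((m + n : ℕ) : ℝ)) = 1 / (((m + n : ℕ) : ℝ) / 2) by field_simp, h1]
  unfold LTd.Kcl
  rw [Pool.Agent.W2helper90.RT.om_eq (show 1 ≤ m + n by omega)]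
  obtain ⟨d, hdd⟩ : ∃ d : ℝ, d = ((m + n : ℕ) : ℝ) := ⟨_, rfl⟩
  rw [← hdd] at hd0 ⊢
  have hGd : 0 < Real.Gamma (d / 2 + 1) := Real.Gamma_pos_of_pos (by positivity)
  rw [Real.div_rpow (by positivity) hGd.le, ← Real.rpow_mul hπ.le,
    show d / 2 * (2 / d) = 1 by field_simp, Real.rpow_one,
    show (1 : ℝ) / (d / 2) = 2 / d by field_simp]
  have hgp : 0 < Real.Gamma (d / 2 + 1) ^ (2 / d) := by positivity
  field_simp
  ring

end

end Pool.Agent.W2helper90.SM
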